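import Mathlib

set_option autoImplicit false

/-!
Every lattice variety is defined by its symmetric identities: `𝒱 = 𝒱^sym`.
-/

namespace Pool.Agent.Results.MP_fa43b0_al.SymmetricIdentities

universe u

/-- Lattice terms in the `n` variables `x_0, …, x_{n-1}`. -/
inductive Term (n : ℕ) : Type
  | var : Fin n → Term n
  | sup : Term n → Term n → Term n
  | inf : Term n → Term n → Term n

/-- The value of a lattice term in a lattice `L` at a tuple `v` of elements of `L`. -/
def Term.eval {n : ℕ} {L : Type u} [Lattice L] (v : Fin n → L) : Term n → L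
  | .var i => v i
  | .sup s t => s.eval v ⊔ t.eval v
  | .inf s t => s.eval v ⊓ t.eval v

/-- The term `t_σ` obtained from `t` by replacing each `x_i` with `x_{σ(i)}`. -/
def Term.subst {n : ℕ} (σ : Equiv.Perm (Fin n)) : Term n → Term n
  | .var i => .var (σ i)
  | .sup s t => .sup (s.subst σ) (t.subst σ)
  | .inf s t => .inf (s.subst σ) (t.subst σ)

/-- `s` and `t` are the same element of the free lattice `FL(n)`: the smallest congruence relation
on terms for which the quotient is a lattice. -/
inductive Term.FLEq {n : ℕ} : Term n → Term n → Prop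
  | refl (s : Term n) : FLEq s s
  | symm {s t : Term n} : FLEq s t → FLEq t s
  | trans {s t r : Term n} : FLEq s t → FLEq t r → FLEq s r
  | sup_congr {s s' t t' : Term n} : FLEq s s' → FLEq t t' → FLEq (.sup s t) (.sup s' t')
  | inf_congr {s s' t t' : Term n} : FLEq s s' → FLEq t t' → FLEq (.inf s t) (.inf s' t')
  | sup_comm (s t : Term n) : FLEq (.sup s t) (.sup t s)
  | inf_comm (s t : Term n) : FLEq (.inf s t) (.inf t s)
  | sup_assoc (s t r : Term n) : FLEq (.sup (.sup s t) r) (.sup s (.sup t r))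
  | inf_assoc (s t r : Term n) : FLEq (.inf (.inf s t) r) (.inf s (.inf t r))
  | sup_inf_self (s t : Term n) : FLEq (.sup s (.inf s t)) s
  | inf_sup_self (s t : Term n) : FLEq (.inf s (.sup s t)) s

/-- A term `t` is symmetric if `t = t_σ` in `FL(n)` for every permutation `σ` of the variables. -/
def Term.IsSymmetric {n : ℕ} (t : Term n) : Prop :=
  ∀ σ : Equiv.Perm (Fin n), Term.FLEq t (t.subst σ)

/-- The lattice `L` satisfies the identity `s ≈ t`. -/
def Satisfies (L : Type u) [Lattice L] {n : ℕ} (s t : Term n) : Prop :=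
  ∀ v : Fin n → L, s.eval v = t.eval v

/-- A class of lattices is a lattice variety if it is the class of all lattices satisfying some
set of lattice identities. -/
def IsVariety (V : (L : Type u) → [Lattice L] → Prop) : Prop :=
  ∃ E : Set (Σ n : ℕ, Term n × Term n), ∀ (L : Type u) [Lattice L],
    V L ↔ ∀ e ∈ E, Satisfies L e.2.1 e.2.2

/-- The symmetric part of a class `V` of lattices: the class of all lattices satisfying every
symmetric identity that holds in `V`. -/
def SymPart (V : (L : Type u) → [Lattice L] → Prop) (L : Type u) [Lattice L] : Prop :=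
  ∀ (n : ℕ) (s t : Term n), s.IsSymmetric → t.IsSymmetric →
    (∀ (K : Type u) [Lattice K], V K → Satisfies K s t) → Satisfies L s t

section basics

variable {n : ℕ} {L : Type u} [Lattice L]

lemma eval_subst (σ : Equiv.Perm (Fin n)) (t : Term n) (v : Fin n → L) :
    (t.subst σ).eval v = t.eval (v ∘ σ) := by
  induction t with
  | var i => rfl
  | sup s t hs ht => simp only [Term.subst, Term.eval, hs, ht]
  | inf s t hs ht => simp only [Term.subst, Term.eval, hs, ht]

lemma eval_mono (t : Term n) {v w : Fin n → L} (h : ∀ i, v i ≤ w i) : t.eval v ≤ t.eval w := by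
  induction t with
  | var i => exact h i
  | sup s t hs ht => exact sup_le_sup hs ht
  | inf s t hs ht => exact inf_le_inf hs ht

/-- Soundness: equality in the free lattice is preserved by evaluation in any lattice. -/
lemma FLEq.eval_eq {s t : Term n} (h : Term.FLEq s t) (v : Fin n → L) : s.eval v = t.eval v := by
  induction h with
  | refl s => rfl
  | symm _ ih => exact ih.symm
  | trans _ _ ih1 ih2 => exact ih1.trans ih2
  | sup_congr _ _ ih1 ih2 => simp only [Term.eval, ih1, ih2]
  | inf_congr _ _ ih1 ih2 => simp only [Term.eval, ih1, ih2]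
  | sup_comm s t => exact _root_.sup_comm _ _
  | inf_comm s t => exact _root_.inf_comm _ _
  | sup_assoc s t r => exact _root_.sup_assoc _ _ _
  | inf_assoc s t r => exact _root_.inf_assoc _ _ _
  | sup_inf_self s t => exact _root_.sup_inf_self
  | inf_sup_self s t => exact _root_.inf_sup_self

/-- The free lattice relation as a setoid on terms. -/
def flSetoid (n : ℕ) : Setoid (Term n) where
  r := Term.FLEq
  iseqv := ⟨Term.FLEq.refl, Term.FLEq.symm, Term.FLEq.trans⟩

/-- The free lattice `FL(n)`. -/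
def FL (n : ℕ) : Type := Quotient (flSetoid n)

/-- The join of the free lattice. -/
def FL.sup (a b : FL n) : FL n :=
  Quotient.map₂ (sa := flSetoid n) (sb := flSetoid n) (sc := flSetoid n) Term.sup
    (fun _ _ h _ _ h' => Term.FLEq.sup_congr h h') a b

/-- The meet of the free lattice. -/
def FL.inf (a b : FL n) : FL n :=
  Quotient.map₂ (sa := flSetoid n) (sb := flSetoid n) (sc := flSetoid n) Term.inf
    (fun _ _ h _ _ h' => Term.FLEq.inf_congr h h') a b

instance : Max (FL n) := ⟨FL.sup⟩
instance : Min (FL n) := ⟨FL.inf⟩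

noncomputable instance : Lattice (FL n) :=
  Lattice.mk'
    (by rintro ⟨a⟩ ⟨b⟩; exact Quotient.sound (s := flSetoid n) (Term.FLEq.sup_comm a b))
    (by rintro ⟨a⟩ ⟨b⟩ ⟨c⟩; exact Quotient.sound (s := flSetoid n) (Term.FLEq.sup_assoc a b c))
    (by rintro ⟨a⟩ ⟨b⟩; exact Quotient.sound (s := flSetoid n) (Term.FLEq.inf_comm a b))
    (by rintro ⟨a⟩ ⟨b⟩ ⟨c⟩; exact Quotient.sound (s := flSetoid n) (Term.FLEq.inf_assoc a b c))
    (by rintro ⟨a⟩ ⟨b⟩; exact Quotient.sound (s := flSetoid n) (Term.FLEq.sup_inf_self a b))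
    (by rintro ⟨a⟩ ⟨b⟩; exact Quotient.sound (s := flSetoid n) (Term.FLEq.inf_sup_self a b))

/-- The class of a term in the free lattice. -/
def FL.mk (t : Term n) : FL n := Quotient.mk (flSetoid n) t

lemma FL.mk_eq (t : Term n) : t.eval (fun i => FL.mk (.var i)) = FL.mk t := by
  induction t with
  | var i => rfl
  | sup s t hs ht => simp only [Term.eval, hs, ht]; rfl
  | inf s t hs ht => simp only [Term.eval, hs, ht]; rfl

/-- Completeness: two terms with equal values in all lattices are equal in the free lattice. -/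
lemma FLEq_of_eval {s t : Term n} (h : ∀ (K : Type) [Lattice K] (v : Fin n → K),
    s.eval v = t.eval v) : Term.FLEq s t := by
  have h1 := h (FL n) (fun i => FL.mk (.var i))
  rw [FL.mk_eq, FL.mk_eq] at h1
  exact Quotient.exact (s := flSetoid n) h1

end basics

section ideals

variable {n : ℕ} {L : Type u} [Lattice L]

open Order

lemma mem_eval_ideal (t : Term n) (A : Fin n → Ideal L) (x : L) :
    x ∈ t.eval A ↔ ∃ c : Fin n → L, (∀ i, c i ∈ A i) ∧ x ≤ t.eval c := by
  induction t generalizing x with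
  | var i =>
    constructor
    · intro hx
      choose c hc using fun j => (A j).nonempty
      refine ⟨Function.update c i x, fun j => ?_, ?_⟩
      · by_cases h : j = i
        · subst h; rw [Function.update_self]; exact hx
        · rw [Function.update_of_ne h]; exact hc j
      · simp [Term.eval]
    · rintro ⟨c, hc, hx⟩
      exact (A i).lower hx (hc i)
  | sup s t hs ht =>
    constructor
    · intro hx
      obtain ⟨i, hi, j, hj, hxij⟩ := Ideal.mem_sup.1 hx
      obtain ⟨c, hc, hic⟩ := (hs i).1 hi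
      obtain ⟨d, hd, hjd⟩ := (ht j).1 hj
      refine ⟨fun k => c k ⊔ d k, fun k => Ideal.sup_mem (hc k) (hd k), ?_⟩
      refine hxij.trans (sup_le_sup ?_ ?_)
      · exact hic.trans (eval_mono s fun k => le_sup_left)
      · exact hjd.trans (eval_mono t fun k => le_sup_right)
    · rintro ⟨c, hc, hx⟩
      exact Ideal.mem_sup.2 ⟨s.eval c, (hs _).2 ⟨c, hc, le_rfl⟩, t.eval c,
        (ht _).2 ⟨c, hc, le_rfl⟩, hx⟩
  | inf s t hs ht =>
    constructor
    · intro hx
      obtain ⟨hx1, hx2⟩ : x ∈ s.eval A ∧ x ∈ t.eval A := hx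
      obtain ⟨c, hc, hic⟩ := (hs x).1 hx1
      obtain ⟨d, hd, hjd⟩ := (ht x).1 hx2
      refine ⟨fun k => c k ⊔ d k, fun k => Ideal.sup_mem (hc k) (hd k), le_inf ?_ ?_⟩
      · exact hic.trans (eval_mono s fun k => le_sup_left)
      · exact hjd.trans (eval_mono t fun k => le_sup_right)
    · rintro ⟨c, hc, hx⟩
      have h1 : x ∈ s.eval A := (hs x).2 ⟨c, hc, hx.trans inf_le_left⟩
      have h2 : x ∈ t.eval A := (ht x).2 ⟨c, hc, hx.trans inf_le_right⟩
      exact ⟨h1, h2⟩

/-- The ideal lattice satisfies all the identities of the lattice. -/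
lemma satisfies_ideal {s t : Term n} (h : Satisfies L s t) : Satisfies (Ideal L) s t := by
  intro A
  ext x
  simp only [SetLike.mem_coe]
  rw [mem_eval_ideal, mem_eval_ideal]
  constructor
  · rintro ⟨c, hc, hx⟩
    exact ⟨c, hc, by rwa [← h c]⟩
  · rintro ⟨c, hc, hx⟩
    exact ⟨c, hc, by rwa [h c]⟩

/-- Separation by an ideal which is maximal among those missing a given element. -/
lemma exists_maximal_ideal {p q : L} (h : ¬ p ≤ q) :
    ∃ w : Ideal L, q ∈ w ∧ p ∉ w ∧ ∀ J : Ideal L, w < J → p ∈ J := by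
  set S : Set (Set L) := {J : Set L | IsIdeal J ∧ q ∈ J ∧ p ∉ J} with hS
  have hq : ((Ideal.principal q : Ideal L) : Set L) ∈ S :=
    ⟨Ideal.isIdeal _, by simp, by simpa using h⟩
  obtain ⟨J0, -, hmax⟩ := zorn_subset_nonempty S (by
    intro c hcS hcC hcNe
    refine ⟨⋃₀ c, ⟨isIdeal_sUnion_of_isChain (fun J hJ => (hcS hJ).1) hcC hcNe, ?_, ?_⟩,
      fun s hs => Set.subset_sUnion_of_mem hs⟩
    · obtain ⟨J, hJ⟩ := hcNe
      exact Set.mem_sUnion_of_mem (hcS hJ).2.1 hJ
    · rintro ⟨J, hJ, hpJ⟩
      exact (hcS hJ).2.2 hpJ) _ hq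
  have h0 := hmax.prop
  refine ⟨IsIdeal.toIdeal h0.1, h0.2.1, h0.2.2, fun J hJ => ?_⟩
  by_contra hp
  have hle : (J0 : Set L) ⊆ (J : Set L) := fun x hx => hJ.le hx
  have := hmax.le_of_ge (y := (J : Set L)) ⟨Ideal.isIdeal J, hle h0.2.1, hp⟩ hle
  exact hJ.not_ge this

end ideals

section symmetrisation

variable {n : ℕ} {L : Type u} [Lattice L]

/-- Join of a nonempty list of terms. -/
def bigSup (t0 : Term n) (l : List (Term n)) : Term n := l.foldr Term.sup t0

/-- Meet of a nonempty list of terms. -/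
def bigInf (t0 : Term n) (l : List (Term n)) : Term n := l.foldr Term.inf t0

lemma bigSup_le (t0 : Term n) (l : List (Term n)) (v : Fin n → L) (w : L) :
    (bigSup t0 l).eval v ≤ w ↔ t0.eval v ≤ w ∧ ∀ p ∈ l, p.eval v ≤ w := by
  induction l with
  | nil => simp [bigSup]
  | cons a l ih =>
    have : (bigSup t0 (a :: l)).eval v = a.eval v ⊔ (bigSup t0 l).eval v := rfl
    rw [this, sup_le_iff, ih]
    simp only [List.mem_cons, forall_eq_or_imp]
    tauto

lemma le_bigInf (t0 : Term n) (l : List (Term n)) (v : Fin n → L) (w : L) :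
    w ≤ (bigInf t0 l).eval v ↔ w ≤ t0.eval v ∧ ∀ p ∈ l, w ≤ p.eval v := by
  induction l with
  | nil => simp [bigInf]
  | cons a l ih =>
    have : (bigInf t0 (a :: l)).eval v = a.eval v ⊓ (bigInf t0 l).eval v := rfl
    rw [this, le_inf_iff, ih]
    simp only [List.mem_cons, forall_eq_or_imp]
    tauto

/-- The meet of all the `t_σ`. -/
noncomputable def symInf (t : Term n) : Term n :=
  bigInf t ((Finset.univ : Finset (Equiv.Perm (Fin n))).toList.map fun σ => t.subst σ)

lemma le_symInf (t : Term n) (v : Fin n → L) (w : L) :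
    w ≤ (symInf t).eval v ↔ ∀ σ : Equiv.Perm (Fin n), w ≤ t.eval (v ∘ σ) := by
  unfold symInf
  rw [le_bigInf]
  simp only [List.mem_map, Finset.mem_toList, Finset.mem_univ, true_and, forall_exists_index,
    forall_apply_eq_imp_iff, eval_subst]
  constructor
  · exact fun h => h.2
  · exact fun h => ⟨by simpa using h 1, h⟩

lemma symInf_symmetric (t : Term n) : (symInf t).IsSymmetric := by
  intro τ
  apply FLEq_of_eval
  intro K _ v
  rw [eval_subst]
  apply le_antisymm
  · rw [le_symInf]
    intro σ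
    have := (le_symInf t v _).1 le_rfl (τ * σ)
    exact this
  · rw [le_symInf]
    intro σ
    have := (le_symInf t (v ∘ τ) _).1 le_rfl (τ⁻¹ * σ)
    have h2 : (v ∘ τ) ∘ ⇑(τ⁻¹ * σ) = v ∘ σ := by
      funext i; simp
    rwa [h2] at this

end symmetrisation

/-- Renaming of the variables. -/
def ren {n m : ℕ} (f : Fin n → Fin m) : Term n → Term m
  | .var i => .var (f i)
  | .sup s t => .sup (ren f s) (ren f t)
  | .inf s t => .inf (ren f s) (ren f t)

lemma eval_ren {n m : ℕ} {L : Type u} [Lattice L] (f : Fin n → Fin m) (t : Term n)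
    (v : Fin m → L) : (ren f t).eval v = t.eval (v ∘ f) := by
  induction t with
  | var i => rfl
  | sup s t hs ht => simp only [ren, Term.eval, hs, ht]
  | inf s t hs ht => simp only [ren, Term.eval, hs, ht]

/-- A permutation of `n + (n + 1)` points maps some point of the second block into the second
block. -/
lemma pigeon {n : ℕ} (σ : Equiv.Perm (Fin (n + (n + 1)))) :
    ∃ j k : Fin (n + 1), σ (Fin.natAdd n j) = Fin.natAdd n k := by
  by_contra hcon
  push Not at hcon
  have h1 : ∀ j : Fin (n + 1), (σ (Fin.natAdd n j) : ℕ) < n := by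
    intro j
    by_contra hj
    have hj' := not_lt.1 hj
    have hlt := (σ (Fin.natAdd n j)).isLt
    refine hcon j ⟨(σ (Fin.natAdd n j) : ℕ) - n, by omega⟩ ?_
    ext
    simp only [Fin.val_natAdd]
    omega
  have hinj : Function.Injective (fun j : Fin (n + 1) => (⟨σ (Fin.natAdd n j), h1 j⟩ : Fin n)) := by
    intro j k hjk
    have := congrArg Fin.val hjk
    simp only at this
    exact Fin.natAdd_injective _ _ (σ.injective (Fin.ext this))
  have := Fintype.card_le_of_injective _ hinj
  simp at this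

open Order in
/-- If `V` satisfies `s ≤ t` then so does every member of the symmetric part of `V`. -/
lemma key (V : (L : Type u) → [Lattice L] → Prop) {n : ℕ} (s t : Term n)
    (hV : ∀ (K : Type u) [Lattice K], V K → ∀ v : Fin n → K, s.eval v ≤ t.eval v)
    (L : Type u) [Lattice L] (hL : SymPart V L) (b : Fin n → L) : s.eval b ≤ t.eval b := by
  classical
  by_contra hst
  obtain ⟨w, htw, hsw, hmax⟩ := exists_maximal_ideal hst
  set m := n + (n + 1) with hm
  set a : Fin m → Ideal L := Fin.append (fun i => Ideal.principal (b i)) (fun _ => w) with ha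
  have ha1 : a ∘ Fin.castAdd (n + 1) = fun i => Ideal.principal (b i) := by
    funext i; simp [ha]
  have ha2 : ∀ j : Fin (n + 1), a (Fin.natAdd n j) = w := by
    intro j; simp [ha]
  have hmem : ∀ (r : Term n) (x : L), x ∈ (ren (Fin.castAdd (n + 1)) r).eval a ↔ x ≤ r.eval b := by
    intro r x
    rw [eval_ren, ha1, mem_eval_ideal]
    constructor
    · rintro ⟨c, hc, hx⟩
      exact hx.trans (eval_mono r fun i => Ideal.mem_principal.1 (hc i))
    · intro hx
      exact ⟨b, fun i => Ideal.mem_principal.2 le_rfl, hx⟩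
  set s' := ren (Fin.castAdd (n + 1)) s with hs'
  set t' := ren (Fin.castAdd (n + 1)) t with ht'
  -- the separating terms
  have hP : ∀ σ : Equiv.Perm (Fin m), ∃ p : Term m, p.eval a ≤ w ∧
      ((∀ r : Term m, r.eval a ≤ w → r.eval (a ∘ σ) ≤ w) ∨ ¬ p.eval (a ∘ σ) ≤ w) := by
    intro σ
    by_cases h : ∀ r : Term m, r.eval a ≤ w → r.eval (a ∘ σ) ≤ w
    · exact ⟨.var (Fin.natAdd n (Fin.last n)), (ha2 _).le, Or.inl h⟩
    · push Not at h
      obtain ⟨r, hr1, hr2⟩ := h
      exact ⟨r, hr1, Or.inr hr2⟩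
  choose P hPa hPσ using hP
  set T0 : Term m := bigSup t' ((List.finRange (n + 1)).map (fun j => Term.var (Fin.natAdd n j)) ++
    (Finset.univ : Finset (Equiv.Perm (Fin m))).toList.map P) with hT0
  set S0 : Term m := Term.sup T0 s' with hS0
  have hT0le : ∀ (K : Type u) [Lattice K] (v : Fin m → K) (x : K), T0.eval v ≤ x ↔
      t'.eval v ≤ x ∧ (∀ j : Fin (n + 1), v (Fin.natAdd n j) ≤ x) ∧
        ∀ σ : Equiv.Perm (Fin m), (P σ).eval v ≤ x := by
    intro K _ v x
    rw [hT0, bigSup_le]
    simp only [List.mem_append, List.mem_map, List.mem_finRange, true_and, Finset.mem_toList,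
      Finset.mem_univ]
    constructor
    · rintro ⟨h1, h2⟩
      exact ⟨h1, fun j => h2 _ (Or.inl ⟨j, rfl⟩), fun σ => h2 _ (Or.inr ⟨σ, rfl⟩)⟩
    · rintro ⟨h1, h2, h3⟩
      refine ⟨h1, ?_⟩
      rintro p (⟨j, rfl⟩ | ⟨σ, rfl⟩)
      · exact h2 j
      · exact h3 σ
  -- the two terms have equal values in `V`
  have hVeq : ∀ (K : Type u) [Lattice K], V K → ∀ v : Fin m → K, S0.eval v = T0.eval v := by
    intro K _ hK v
    apply le_antisymm
    · refine sup_le le_rfl ?_
      have h1 : s'.eval v ≤ t'.eval v := by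
        rw [hs', ht', eval_ren, eval_ren]; exact hV K hK _
      exact h1.trans ((hT0le K v _).1 le_rfl).1
    · exact le_sup_left
  have hVsym : ∀ (K : Type u) [Lattice K], V K → Satisfies K (symInf S0) (symInf T0) := by
    intro K _ hK v
    apply le_antisymm
    · rw [le_symInf]
      intro σ
      rw [← hVeq K hK]
      exact (le_symInf S0 v _).1 le_rfl σ
    · rw [le_symInf]
      intro σ
      rw [hVeq K hK]
      exact (le_symInf T0 v _).1 le_rfl σ
  have hideal := satisfies_ideal (hL m (symInf S0) (symInf T0) (symInf_symmetric S0)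
    (symInf_symmetric T0) hVsym) a
  -- values at the assignment `a`
  have hT0a : T0.eval a ≤ w := by
    rw [hT0le]
    refine ⟨?_, fun j => (ha2 j).le, hPa⟩
    intro x hx
    have : x ≤ t.eval b := (hmem t x).1 hx
    exact w.lower this htw
  have hTa : (symInf T0).eval a ≤ w := by
    have := (le_symInf T0 a _).1 le_rfl 1
    exact this.trans (by simpa using hT0a)
  have hnot : ∀ σ : Equiv.Perm (Fin m), ¬ S0.eval (a ∘ σ) ≤ w := by
    intro σ hσ
    have h1 : T0.eval (a ∘ σ) ≤ w := le_trans le_sup_left hσ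
    have h2 : (P σ).eval (a ∘ σ) ≤ w := ((hT0le _ _ _).1 h1).2.2 σ
    rcases hPσ σ with h3 | h3
    · have h4 : ∀ k : ℕ, S0.eval (a ∘ ⇑(σ ^ (k + 1))) ≤ w := by
        intro k
        induction k with
        | zero => simpa using hσ
        | succ k ih =>
          have h5 := h3 (S0.subst (σ ^ (k + 1))) (by rw [eval_subst]; exact ih)
          rw [eval_subst] at h5
          have h6 : (a ∘ ⇑σ) ∘ ⇑(σ ^ (k + 1)) = a ∘ ⇑(σ ^ (k + 1 + 1)) := by
            funext i
            simp only [Function.comp_apply]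
            rw [pow_succ' σ (k + 1), Equiv.Perm.mul_apply]
          rwa [h6] at h5
      have h5 := h4 (orderOf σ - 1)
      have h6 : orderOf σ - 1 + 1 = orderOf σ := Nat.sub_add_cancel (orderOf_pos σ)
      rw [h6, pow_orderOf_eq_one] at h5
      have h5' : S0.eval a ≤ w := h5
      have h7 : s'.eval a ≤ w := le_trans le_sup_right h5'
      exact hsw (h7 ((hmem s _).2 le_rfl))
    · exact h3 h2
  have hlt : ∀ σ : Equiv.Perm (Fin m), w < S0.eval (a ∘ σ) := by
    intro σ
    refine lt_of_le_of_ne ?_ (fun h => hnot σ h.ge)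
    obtain ⟨j, k, hjk⟩ := pigeon σ
    have h1 : (a ∘ σ) (Fin.natAdd n j) = w := by
      rw [Function.comp_apply, hjk, ha2]
    rw [← h1]
    exact le_trans (((hT0le _ (a ∘ σ) _).1 le_rfl).2.1 j) le_sup_left
  have hS : Ideal.principal (s.eval b) ≤ (symInf S0).eval a := by
    rw [le_symInf]
    intro σ
    exact Ideal.principal_le_iff.2 (hmax _ (hlt σ))
  rw [hideal] at hS
  exact hsw (Ideal.principal_le_iff.1 (hS.trans hTa))

/-- Every lattice variety is equal to its symmetric part. -/
theorem result : ∀ V : (L : Type u) → [Lattice L] → Prop, IsVariety V →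
    ∀ (L : Type u) [Lattice L], SymPart V L ↔ V L := by
  intro V hV L _
  constructor
  · intro h
    obtain ⟨E, hE⟩ := hV
    rw [hE]
    intro e he v
    have hs : ∀ (K : Type u) [Lattice K], V K → Satisfies K e.2.1 e.2.2 :=
      fun K _ hK => (hE K).1 hK e he
    apply le_antisymm
    · exact key V e.2.1 e.2.2 (fun K _ hK v => (hs K hK v).le) L h v
    · exact key V e.2.2 e.2.1 (fun K _ hK v => (hs K hK v).ge) L h v
  · intro h n s t _ _ hst
    exact hst L h

end Pool.Agent.Results.MP_fa43b0_al.SymmetricIdentities
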